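import Pool.Agent.P.MP_f12b6c_an.T3Base
import Pool.Agent.P.MP_f12b6c_an.T3TabAll
import Pool.Agent.P.MP_f12b6c_an.T3Diag
import Pool.Agent.P.MP_f12b6c_an.T3Frame
import Pool.Agent.P.MP_f12b6c_an.T3Cyl

/-!
Singular viscosity solutions of uniformly elliptic equations `F(D²u) = 0` exist in every
dimension `n ≥ 3`, in particular for `n = 3` and `n = 4`.
-/

namespace Pool.Agent.Results.MP_f12b6c_an.Singular

open Pool.Agent.P.MP_f12b6c_an

/-- In every dimension `n ≥ 3` there are a uniformly elliptic `F` on symmetric `n × n` matrices and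
a viscosity solution `u` of `F(D²u) = 0` in the unit ball that is not `C²` in any ball centred at
the origin. -/
theorem result (n : ℕ) (hn : 3 ≤ n) :
    ∃ (lam Lam : ℝ) (F : Mat n → ℝ) (u : E n → ℝ), 0 < lam ∧ lam ≤ Lam ∧ UnifElliptic lam Lam F ∧
      IsViscSol F u ∧ ∀ r : ℝ, 0 < r → ¬ ContDiffOn ℝ 2 u (Metric.ball 0 r) := by
  have h3 : Sing 3 := by
    obtain ⟨c, hc⟩ := model_of_good (pol_contDiff 3 65536 uL) (pol_odd 65536 uD_ok.odd) tab_good
      Dg.diag_uL
    exact hc.sing
  have h : ∀ m : ℕ, Sing (3 + m) := fun m => by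
    induction m with
    | zero => exact h3
    | succ m ih => exact ih.succ
  obtain ⟨m, rfl⟩ := Nat.exists_eq_add_of_le hn
  exact h m

end Pool.Agent.Results.MP_f12b6c_an.Singular
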